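import Pool.Agent.H2.RigidEmb

set_option autoImplicit false

namespace Pool.Agent.Results.MP_e29ee7_lc.UncountableCofinality

/-- `C(T)`: the maximal chains of the partially ordered set `T`. -/
def MaxChain (T : Type) [PartialOrder T] : Type := {A : Set T // IsMaxChain (· ≤ ·) A}

/-- `A ≤ B` in `C(T)`: the linear order `A` embeds in the linear order `B`. -/
def Embeds {T : Type} [PartialOrder T] (A B : MaxChain T) : Prop := Nonempty (A.1 ↪o B.1)

open Pool.Agent.H2.Rigid in
/-- There is a tree `T` which is a countable union of chains such that every maximal chain `K` of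
`(C(T), ≤)` (there is at least one) has uncountable cofinality. -/
theorem result : ∃ (T : Type) (_ : PartialOrder T),
    (∀ x : T, IsChain (· ≤ ·) {y : T | y < x}) ∧
    (∃ L : ℕ → Set T, (∀ n, IsChain (· ≤ ·) (L n)) ∧ ⋃ n, L n = Set.univ) ∧
    (∃ K : Set (MaxChain T), IsMaxChain Embeds K) ∧
    (∀ K : Set (MaxChain T), IsMaxChain Embeds K →
      ∀ K' : Set (MaxChain T), K' ⊆ K → (∀ A ∈ K, ∃ B ∈ K', Embeds A B) → ¬ K'.Countable) := by
  classical
  obtain ⟨E, hE1, hE2⟩ := exists_family
  have hE : Fam E := ⟨hE1, hE2⟩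
  refine ⟨T E, inferInstance, tree, union_chains, ⟨_, maxChain_spec⟩, ?_⟩
  intro K hK K' hK' hcof hcount
  -- the branch attached to a maximal chain
  have hcl : ∀ A : MaxChain (T E), ∃ f, A = ⟨B E f, B_max hE f⟩ := by
    intro A
    obtain ⟨f, hf⟩ := classify hE A.2
    exact ⟨f, Subtype.ext hf⟩
  choose b hb using hcl
  -- a function dominating all the branches in `K'`
  obtain ⟨g, hg⟩ : ∃ g : ℕ → ℕ, ∀ A ∈ K', ∃ N, ∀ n, N ≤ n → b A n < g n := by
    by_cases hne : K'.Nonempty
    · obtain ⟨s, hs⟩ := hcount.exists_eq_range hne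
      refine ⟨fun n => (Finset.range (n + 1)).sup (fun i => b (s i) n) + 1, ?_⟩
      intro A hA
      rw [hs] at hA
      obtain ⟨i, rfl⟩ := hA
      refine ⟨i, fun n hn => ?_⟩
      have : b (s i) n ≤ (Finset.range (n + 1)).sup (fun i => b (s i) n) :=
        Finset.le_sup (f := fun i => b (s i) n) (Finset.mem_range.mpr (by omega))
      exact Nat.lt_succ_of_le this
    · refine ⟨fun _ => 0, fun A hA => ?_⟩
      exact absurd ⟨A, hA⟩ hne
  let G : MaxChain (T E) := ⟨B E g, B_max hE g⟩
  have hG : ∀ A ∈ K, Embeds A G := by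
    intro A hA
    obtain ⟨A', hA', h1⟩ := hcof A hA
    obtain ⟨N, hN⟩ := hg A' hA'
    have h2 : Embeds A' G := by
      have := emb_of_le hE (f := b A') (g := g) (fun n hn => (hN n hn).le)
      rw [hb A']
      exact this
    exact ⟨h1.some.trans h2.some⟩
  have hGK : G ∈ K := by
    have h1 : IsChain Embeds (insert G K) := hK.1.insert (fun A hA _ => Or.inr (hG A hA))
    rw [hK.2 h1 (Set.subset_insert G K)]
    exact Set.mem_insert G K
  obtain ⟨A, hA, h1⟩ := hcof G hGK
  obtain ⟨N, hN⟩ := hg A hA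
  rw [hb A] at h1
  obtain ⟨N', hN'⟩ := le_of_emb hE h1.some
  have h2 := hN (max N N') (le_max_left _ _)
  have h3 := hN' (max N N') (le_max_right _ _)
  omega

end Pool.Agent.Results.MP_e29ee7_lc.UncountableCofinality
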